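import Pool.Agent.Helper36.SIX.Los

/-!
# SIX: affine coordinates, `δ` absolute, from the algebraic part
-/

set_option autoImplicit false
set_option linter.unusedSectionVars false

namespace Pool.Agent.SIX

open NumberField IntermediateField Pool.Agent.Helper64.Vojta Pool.Agent.VZ Pool.Agent.PC Pool.Agent.UD
open Filter Topology
open Pool.Agent.SL (Dat br qf bf dt cr lin)
open Pool.Agent.Helper77.AU (hgt_nonneg)

universe u

/-- the algebraic part -/
def Alg : Prop := ∀ (K Ω : Type u) [Field K] [CharZero K] [Field Ω] [Algebra K Ω] (D : Dat K Ω)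
    (L : Fin 6 → Fin 3 → K), GenPos L → NoConic L → ∀ x x' : Fin 3 → Ω, x ≠ 0 → x' ≠ 0 →
    (∀ i j, D.U ((lin (L i) x * lin (L i) x') / (lin (L j) x * lin (L j) x'))) →
    ((∀ a b, IsAlgebraic K (x a / x b)) ∧ (∀ a b, IsAlgebraic K (x' a / x' b))) ∨
    (∃ i j m n : Fin 6, [i, j, m, n].Nodup ∧ lin (vx (L i) (L j) (L m) (L n)) x = 0 ∧
      lin (vx (L i) (L j) (L m) (L n)) x' = 0) ∨
    (∃ M : Fin 6 → K, Exc L M ∧ qf (fun i => algebraMap K Ω (M i)) x = 0 ∧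
      qf (fun i => algebraMap K Ω (M i)) x' = 0)

/-- a failing inequality -/
structure Bad6 (d : ℕ) (δ : ℝ) : Type (u + 1) where
  k : Type u
  [fk : Field k]
  [nk : NumberField k]
  ℓ : Fin 6 → Fin 3 → k
  hG : GenPos ℓ
  hC : NoConic ℓ
  S : Finset (Pl k)
  y : ℕ → Fin 2 → AlgebraicClosure k
  hyd : ∀ j, dg (y j) = d
  hyD : ∀ j i, ∑ a, algebraMap k (fld (y j)) (ℓ i a) * crd (y j) a ≠ 0
  hyV : ∀ j, ∀ a b m n : Fin 6, [a, b, m, n].Nodup →
    lin (vx (ℓ a) (ℓ b) (ℓ m) (ℓ n)) (Fin.cons 1 (y j) : Fin 3 → AlgebraicClosure k) ≠ 0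
  hyM : ∀ j, ∀ M : Fin 6 → k, Exc ℓ M →
    qf (fun i => algebraMap k (AlgebraicClosure k) (M i)) (Fin.cons 1 (y j) : Fin 3 → AlgebraicClosure k) ≠ 0
  hyN : ∀ j : ℕ, (6 - δ) * hgt (y j) + j < lam ℓ S (y j)

attribute [instance] Bad6.fk Bad6.nk

theorem U_mul {K Ω : Type u} [Field K] [Field Ω] [Algebra K Ω] (D : Dat K Ω) {a b : Ω} (ha : D.U a) (hb : D.U b) :
    D.U (a * b) := by
  refine ⟨mul_ne_zero ha.1 hb.1, D.R.mul_mem ha.2.1 hb.2.1, ?_⟩
  rw [mul_inv]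
  exact D.R.mul_mem ha.2.2 hb.2.2

theorem lin_zero {K Ω : Type u} [Field K] [Field Ω] [Algebra K Ω] (v : Fin 3 → K) : lin v (0 : Fin 3 → Ω) = 0 := by
  simp [lin]

theorem charZero_SKt {J : Type u} {W : Ultrafilter J} {U : Ultrafilter ℕ} {k : J → Type u} [∀ i, Field (k i)]
    [∀ i, NumberField (k i)] {t : J → ℕ → ℝ} (ht : Sc U t) : CharZero (SKt W U k t ht) := by
  refine charZero_of_inj_zero fun n hn => ?_
  have h1 : incl ht (n : SKt W U k t ht) = mk (PU W U) (fun p => k p.1) (n : ∀ p : J × ℕ, k p.1) := by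
    rw [map_natCast, map_natCast]
  rw [hn, map_zero, eq_comm, mk_zero] at h1
  obtain ⟨p, hp⟩ := h1.exists
  have h2 : ((n : ℕ) : k p.1) = 0 := hp
  exact_mod_cast h2

theorem bad6_false (A : Alg.{u}) {d : ℕ} (hd1 : 1 ≤ d) (hd2 : d ≤ 2)
    (h : ∀ m : ℕ, Nonempty (Bad6.{u} d (1 / ((m : ℝ) + 1)))) : False := by
  classical
  let W : Ultrafilter (ULift.{u} ℕ) := Filter.hyperfilter (ULift.{u} ℕ)
  have B : ∀ i : ULift.{u} ℕ, Bad6.{u} d (1 / ((i.down : ℝ) + 1)) := fun i => (h i.down).some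
  obtain ⟨U, t, ht, D, X, s0, c, hc, hU, hX, hna⟩ := glueE coreE_all W (fun i => (B i).k) (n := 2) (q := 6) d
    (fun i => (B i).ℓ) 0 (fun i => (B i).S) (fun i => 1 / ((i.down : ℝ) + 1)) (fun i => by positivity)
    (fun i => by
      rw [div_le_one (by positivity)]
      have : (0 : ℝ) ≤ (i.down : ℝ) := Nat.cast_nonneg _
      linarith)
    (by
      intro η hη
      obtain ⟨m, hm⟩ := exists_nat_gt (1 / η)
      have h1 : ∀ᶠ i : ULift.{u} ℕ in Filter.cofinite, m ≤ i.down := by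
        rw [Filter.eventually_cofinite]
        refine ((Set.finite_lt_nat m).preimage (ULift.down_injective.injOn)).subset fun i hi => ?_
        exact not_le.1 hi
      have h2 : (W : Filter (ULift.{u} ℕ)) ≤ Filter.cofinite := Filter.hyperfilter_le_cofinite
      filter_upwards [h2 h1] with i hi
      have h3 : (m : ℝ) ≤ (i.down : ℝ) := by exact_mod_cast hi
      rw [div_le_iff₀ (by positivity)]
      rw [div_lt_iff₀ hη] at hm
      nlinarith)
    (fun i => (B i).y) (fun i => (B i).hyd) (fun i => (B i).hyD)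
    (fun i j => by
      have := (B i).hyN j
      push_cast
      exact this)
  have := charZero_SKt (W := W) (k := fun i => (B i).k) ht
  set L := gL W ht (fun i => (B i).ℓ) with hL
  have hG : GenPos L := genPos_gL ht _ fun i => (B i).hG
  have hC : NoConic L := noConic_gL ht _ fun i => (B i).hC
  have hU' : ∀ i i', D.U ((∏ σ, lin (L i) (X σ)) / ∏ σ, lin (L i') (X σ)) := hU
  have hX0 : ∀ σ, X σ ≠ 0 := by
    intro σ h0
    have h1 := (hU' 0 0).1
    apply h1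
    have h2 : ∏ σ, lin (L 0) (X σ) = 0 := by
      refine Finset.prod_eq_zero (Finset.mem_univ σ) ?_
      rw [h0, lin_zero]
    rw [h2, zero_div]
  -- the alternatives
  have key : (∀ σ a b, IsAlgebraic (SKt W U (fun i => (B i).k) t ht) (X σ a / X σ b)) ∨
      (∃ i j m n : Fin 6, [i, j, m, n].Nodup ∧ lin (vx (L i) (L j) (L m) (L n)) (X s0) = 0) ∨
      (∃ M : Fin 6 → SKt W U (fun i => (B i).k) t ht, Exc L M ∧
        qf (fun i => algebraMap _ (OO W U fun i => (B i).k) (M i)) (X s0) = 0) := by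
    obtain rfl | rfl : d = 1 ∨ d = 2 := by omega
    · have hs : ∀ σ : Fin 1, σ = 0 := fun σ => Subsingleton.elim _ _
      have h1 : ∀ i j, D.U ((lin (L i) (X 0) * lin (L i) (X 0)) / (lin (L j) (X 0) * lin (L j) (X 0))) := by
        intro i j
        have h2 := hU' i j
        rw [Fin.prod_univ_one, Fin.prod_univ_one] at h2
        have h3 := U_mul D h2 h2
        rwa [div_mul_div_comm] at h3
      rw [hs s0]
      rcases A _ _ D L hG hC (X 0) (X 0) (hX0 0) (hX0 0) h1 with h | ⟨i, j, m, n, h⟩ | ⟨M, h⟩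
      · left
        intro σ
        rw [hs σ]
        exact h.1
      · exact Or.inr (Or.inl ⟨i, j, m, n, h.1, h.2.1⟩)
      · exact Or.inr (Or.inr ⟨M, h.1, h.2.1⟩)
    · have h1 : ∀ i j, D.U ((lin (L i) (X 0) * lin (L i) (X 1)) / (lin (L j) (X 0) * lin (L j) (X 1))) := by
        intro i j
        have h2 := hU' i j
        rwa [Fin.prod_univ_two, Fin.prod_univ_two] at h2
      rcases A _ _ D L hG hC (X 0) (X 1) (hX0 0) (hX0 1) h1 with h | ⟨i, j, m, n, h⟩ | ⟨M, h⟩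
      · left
        intro σ
        fin_cases σ
        · exact h.1
        · exact h.2
      · refine Or.inr (Or.inl ⟨i, j, m, n, h.1, ?_⟩)
        fin_cases s0
        · exact h.2.1
        · exact h.2.2
      · refine Or.inr (Or.inr ⟨M, h.1, ?_⟩)
        fin_cases s0
        · exact h.2.1
        · exact h.2.2
  rcases key with h1 | ⟨i, j, m, n, hnd, h1⟩ | ⟨M, hM, h1⟩
  · exact hna fun a => h1 s0 a 0
  · have h2 := lin_point ht _ (fun l (p : ULift.{u} ℕ × ℕ) => vx ((B p.1).ℓ i) ((B p.1).ℓ j) ((B p.1).ℓ m) ((B p.1).ℓ n) l)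
      (fun l => incl_vx ht (fun i => (B i).ℓ) i j m n l) (X s0) c hc
      (fun p => (Fin.cons 1 ((B p.1).y p.2) : Fin 3 → AlgebraicClosure (B p.1).k)) hX h1
    obtain ⟨p, hp⟩ := h2.exists
    exact (B p.1).hyV p.2 i j m n hnd hp
  · obtain ⟨a, ha, rfl⟩ := exists_gv ht M
    have h2 := qf_point ht ha (X s0) c hc
      (fun p => (Fin.cons 1 ((B p.1).y p.2) : Fin 3 → AlgebraicClosure (B p.1).k)) hX h1
    obtain ⟨p, hp, hp'⟩ := (h2.and (exc_gL ht _ ha hM)).exists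
    exact (B p.1).hyM p.2 _ hp' hp

/-- **BLOCK G.** Affine coordinates (the point `(1 : y 0 : y 1)`), `δ` absolute. -/
theorem affine_of_alg (A : Alg.{u}) : ∃ δ : ℝ, 0 < δ ∧ ∀ (k : Type u) [Field k] [NumberField k] (ℓ : Fin 6 → Fin 3 → k),
    GenPos ℓ → NoConic ℓ → ∀ S : Finset (Pl k), ∃ C : ℝ, ∀ y : Fin 2 → AlgebraicClosure k, VZ.dg y ≤ 2 →
      (∀ i, ∑ j, algebraMap k (VZ.fld y) (ℓ i j) * VZ.crd y j ≠ 0) →
      (∀ i j m n : Fin 6, [i, j, m, n].Nodup →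
        lin (vx (ℓ i) (ℓ j) (ℓ m) (ℓ n)) (Fin.cons 1 y : Fin 3 → AlgebraicClosure k) ≠ 0) →
      (∀ M : Fin 6 → k, Exc ℓ M →
        qf (fun i => algebraMap k (AlgebraicClosure k) (M i)) (Fin.cons 1 y : Fin 3 → AlgebraicClosure k) ≠ 0) →
      VZ.lam ℓ S y ≤ (6 - δ) * VZ.hgt y + C := by
  have hex : ∀ d : ℕ, 1 ≤ d → d ≤ 2 → ∃ δ : ℝ, 0 < δ ∧ ∀ (k : Type u) [Field k] [NumberField k] (ℓ : Fin 6 → Fin 3 → k),
      GenPos ℓ → NoConic ℓ → ∀ S : Finset (Pl k), ∃ C : ℝ, ∀ y : Fin 2 → AlgebraicClosure k, VZ.dg y = d →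
        (∀ i, ∑ j, algebraMap k (VZ.fld y) (ℓ i j) * VZ.crd y j ≠ 0) →
        (∀ i j m n : Fin 6, [i, j, m, n].Nodup →
          lin (vx (ℓ i) (ℓ j) (ℓ m) (ℓ n)) (Fin.cons 1 y : Fin 3 → AlgebraicClosure k) ≠ 0) →
        (∀ M : Fin 6 → k, Exc ℓ M →
          qf (fun i => algebraMap k (AlgebraicClosure k) (M i)) (Fin.cons 1 y : Fin 3 → AlgebraicClosure k) ≠ 0) →
        VZ.lam ℓ S y ≤ (6 - δ) * VZ.hgt y + C := by
    intro d h1 h2
    by_contra hcon
    refine bad6_false A h1 h2 fun m => ?_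
    by_contra hB
    refine hcon ⟨1 / ((m : ℝ) + 1), by positivity, fun k _ _ ℓ hG hC S => ?_⟩
    by_contra hS
    push Not at hS
    choose y g1 g2 g3 g4 g5 using fun j : ℕ => hS j
    exact hB ⟨⟨k, ℓ, hG, hC, S, y, g1, g2, g3, g4, g5⟩⟩
  obtain ⟨δ₁, p1, h1⟩ := hex 1 le_rfl (by norm_num)
  obtain ⟨δ₂, p2, h2⟩ := hex 2 (by norm_num) le_rfl
  refine ⟨min δ₁ δ₂, lt_min p1 p2, fun k _ _ ℓ hG hC S => ?_⟩
  obtain ⟨C₁, c1⟩ := h1 k ℓ hG hC S
  obtain ⟨C₂, c2⟩ := h2 k ℓ hG hC S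
  refine ⟨max C₁ C₂, fun y hy hD hV hM => ?_⟩
  have hfd : FiniteDimensional k (VZ.fld y) :=
    finiteDimensional_adjoin fun x _ => Algebra.IsIntegral.isIntegral x
  have hpos : 0 < VZ.dg y := Module.finrank_pos
  have g0 := hgt_nonneg y
  obtain h | h : VZ.dg y = 1 ∨ VZ.dg y = 2 := by omega
  · have g1 := c1 y h hD hV hM
    have g2 := mul_le_mul_of_nonneg_right (min_le_left δ₁ δ₂) g0
    have g3 := le_max_left C₁ C₂
    linarith
  · have g1 := c2 y h hD hV hM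
    have g2 := mul_le_mul_of_nonneg_right (min_le_right δ₁ δ₂) g0
    have g3 := le_max_right C₁ C₂
    linarith

end Pool.Agent.SIX
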