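import Pool.Agent.Helper64.UD.Main
import Pool.Agent.Helper97.SIX.Defs

/-!
# SIX: the germs of a family of inequalities which fail

The variant of `UD.glueF` which also says what the forms and the point `X s0` are.
-/

set_option autoImplicit false
set_option linter.unusedSectionVars false

namespace Pool.Agent.SIX

open NumberField IntermediateField Pool.Agent.Helper64.Vojta Pool.Agent.VZ Pool.Agent.PC Pool.Agent.UD
open Filter Topology
open Pool.Agent.SL (Dat)
open Pool.Agent.Helper77.AU (lam_le hgt_nonneg out_le_of hgt_le)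

universe u

theorem glueE (hcore : ∀ r, ∃ ε : ℝ, 0 < ε ∧ CoreE.{u} r ε) {J : Type u} (W : Ultrafilter J)
    (k : J → Type u) [∀ i, Field (k i)] [∀ i, NumberField (k i)] {n q : ℕ} (r : ℕ)
    (ℓ : ∀ i, Fin q → Fin (n + 1) → k i) (i₀ : Fin q)
    (S : ∀ i, Finset (Pl (k i))) (ε : J → ℝ) (hε0 : ∀ i, 0 ≤ ε i) (hε1 : ∀ i, ε i ≤ 1)
    (hε : ∀ η : ℝ, 0 < η → ∀ᶠ i in (W : Filter J), ε i ≤ η)
    (y : ∀ i, ℕ → Fin n → AlgebraicClosure (k i))
    (hyr : ∀ i j, dg (y i j) = r)
    (hyD : ∀ i j l, ∑ a, algebraMap (k i) (fld (y i j)) (ℓ i l a) * crd (y i j) a ≠ 0)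
    (hyN : ∀ i (j : ℕ), (q - ε i) * hgt (y i j) + j < lam (ℓ i) (S i) (y i j)) :
    ∃ (U : Ultrafilter ℕ) (t : J → ℕ → ℝ) (ht : Sc U t) (D : Dat (SKt W U k t ht) (OO W U k))
      (X : Fin r → Fin (n + 1) → OO W U k) (s0 : Fin r) (c : ∀ p : J × ℕ, AlgebraicClosure (k p.1)),
      (∀ p, c p ≠ 0) ∧
      (∀ i i', D.U ((∏ σ, ∑ a, (ek (fun p : J × ℕ => ℓ p.1 i a) : OO W U k) * X σ a) /
        (∏ σ, ∑ a, (ek (fun p : J × ℕ => ℓ p.1 i' a) : OO W U k) * X σ a))) ∧
      (∀ a, X s0 a = gO fun p : J × ℕ => c p *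
        (Fin.cons 1 (y p.1 p.2) : Fin (n + 1) → AlgebraicClosure (k p.1)) a) ∧
      ¬ ∀ a, IsAlgebraic (SKt W U k t ht) (X s0 a / X s0 0) := by
  classical
  set U : Ultrafilter ℕ := Filter.hyperfilter ℕ with hU
  have hUtop : (U : Filter ℕ) ≤ atTop := by
    rw [← Nat.cofinite_eq_atTop]
    exact Filter.hyperfilter_le_cofinite
  choose C₀ hC₀ hlam using fun i => lam_le (S i) r (ℓ i)
  choose C₁ hC₁ hunits using fun i => Pool.Agent.EXP.units_plus_u (S i) r (ℓ i) i₀
  -- the scale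
  set t : J → ℕ → ℝ := fun i j => hgt (y i j) with ht_def
  have hge : ∀ i (j : ℕ), (j : ℝ) - C₀ i ≤ t i j := by
    intro i j
    have h1 := hyN i j
    have h2 := hlam i (y i j) (hyr i j).le (hyD i j)
    have h3 := hgt_nonneg (y i j)
    have h4 := mul_le_mul_of_nonneg_right (hε1 i) h3
    show (j : ℝ) - C₀ i ≤ hgt (y i j)
    nlinarith
  have ht : Sc U t := by
    intro i
    refine Tendsto.mono_left ?_ hUtop
    refine tendsto_atTop_mono (hge i) ?_
    exact tendsto_atTop_add_const_right _ _ tendsto_natCast_atTop_atTop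
  -- the units
  have hE : ∀ i j, 0 ≤ ε i * hgt (y i j) := fun i j => mul_nonneg (hε0 i) (hgt_nonneg _)
  have hNE : ∀ i j, q * hgt (y i j) - ε i * hgt (y i j) ≤ lam (ℓ i) (S i) (y i j) := by
    intro i j
    have h1 := hyN i j
    have : (0 : ℝ) ≤ j := Nat.cast_nonneg j
    linarith
  choose x s c' u hc' hxs hx1 hxu hxh hxT hxf using fun i j =>
    hunits i (y i j) _ (hyr i j) (hE i j) (hyD i j) (hNE i j)
  obtain ⟨s0, hs0⟩ := const_fin (PU W U) fun p => s p.1 p.2
  obtain ⟨D, hD⟩ := slow_dat (W := W) hcore (fun i => (S i).toRight) ht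
  have hAU : ∀ l, AUf W U (fun i => (S i).toRight) t (fun p => u p.1 p.2 l) := by
    intro l
    refine ⟨Eventually.of_forall fun p => (hxu p.1 p.2 l).1, fun η hη => ?_⟩
    have h1 : ∀ᶠ p in (PU W U : Filter (J × ℕ)), ε p.1 ≤ η / (4 * (r + 1)) :=
      (ev_iff W U).2 ((hε _ (by positivity)).mono fun i hi => Eventually.of_forall fun j => hi)
    filter_upwards [h1, ht.small (W := W) C₁ (half_pos hη), ht.pos (W := W)] with p h2 h3 h4
    have h5 := out_le_of (S p.1) (hxu p.1 p.2 l).1 _ (hxT p.1 p.2 l)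
    refine h5.trans ?_
    have h6 : 2 * (r : ℝ) * (ε p.1 * hgt (y p.1 p.2)) ≤ η / 2 * t p.1 p.2 := by
      have h7 : (0 : ℝ) < 4 * (r + 1) := by positivity
      rw [le_div_iff₀ h7] at h2
      have h8 : 2 * (r : ℝ) * ε p.1 ≤ η / 2 := by nlinarith [hε0 p.1]
      have h9 := mul_le_mul_of_nonneg_right h8 h4.le
      show 2 * (r : ℝ) * (ε p.1 * t p.1 p.2) ≤ _
      linarith
    linarith
  let X : Fin r → Fin (n + 1) → OO W U k := fun σ a => gO fun p : J × ℕ => x p.1 p.2 σ a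
  have huu : ∀ i, (∏ σ, ∑ a, (ek (fun p : J × ℕ => ℓ p.1 i a) : OO W U k) * X σ a) =
      ek fun p : J × ℕ => u p.1 p.2 i := by
    intro i
    rw [ek_apply]
    have h : (fun p : J × ℕ => algebraMap (k p.1) (AlgebraicClosure (k p.1)) (u p.1 p.2 i)) =
        ∏ σ, fun p : J × ℕ => ∑ a, algebraMap (k p.1) (AlgebraicClosure (k p.1)) (ℓ p.1 i a) * x p.1 p.2 σ a := by
      funext p
      rw [Finset.prod_apply]
      exact (hxu p.1 p.2 i).2
    rw [h, map_prod]
    refine Finset.prod_congr rfl fun σ _ => ?_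
    have h' : (fun p : J × ℕ => ∑ a, algebraMap (k p.1) (AlgebraicClosure (k p.1)) (ℓ p.1 i a) * x p.1 p.2 σ a) =
        ∑ a, (fun p : J × ℕ => algebraMap (k p.1) (AlgebraicClosure (k p.1)) (ℓ p.1 i a)) *
          fun p : J × ℕ => x p.1 p.2 σ a := by
      funext p
      rw [Finset.sum_apply]
      rfl
    rw [h', map_sum]
    refine Finset.sum_congr rfl fun a _ => ?_
    rw [map_mul]
    rfl
  have hc0 : (gO fun p : J × ℕ => c' p.1 p.2 : OO W U k) ≠ 0 := by
    intro h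
    have h1 := (mk_zero (PU W U)).1 h
    obtain ⟨p, hp⟩ := h1.exists
    exact hc' p.1 p.2 hp
  have hXs1 : ∀ a, X s0 a = gO fun p : J × ℕ => c' p.1 p.2 *
      (Fin.cons 1 (y p.1 p.2) : Fin (n + 1) → AlgebraicClosure (k p.1)) a := by
    intro a
    refine (mk_eq (PU W U)).2 ?_
    filter_upwards [hs0] with p hp
    rw [← hp]
    exact hxs p.1 p.2 a
  have hXs0 : ∀ a, X s0 a = gO (fun p : J × ℕ => c' p.1 p.2) *
      gO fun p : J × ℕ => (Fin.cons 1 (y p.1 p.2) : Fin (n + 1) → AlgebraicClosure (k p.1)) a := by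
    intro a
    rw [hXs1]
    exact map_mul (mk (PU W U) _) _ _
  refine ⟨U, t, ht, D, X, s0, fun p => c' p.1 p.2, fun p => hc' p.1 p.2, ?_, hXs1, ?_⟩
  · intro i i'
    rw [huu, huu, ← ek_div]
    exact hD _ ((hAU i).div (hAU i'))
  · intro hcon
    have halg : ∀ a : Fin n, IsAlgebraic (SKt W U k t ht) (gO (fun p : J × ℕ => y p.1 p.2 a) : OO W U k) := by
      intro a
      have h1 := hcon a.succ
      rw [hXs0, hXs0] at h1
      have h2 : (gO fun p : J × ℕ => (Fin.cons 1 (y p.1 p.2) : Fin (n + 1) → AlgebraicClosure (k p.1)) 0 : OO W U k) = 1 :=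
        map_one (mk (PU W U) _)
      rw [h2, mul_one, mul_div_cancel_left₀ _ hc0] at h1
      exact h1
    choose d a ha hda using fun j => exists_slow_root ht _ (halg j)
    have hda' : ∀ᶠ p in (PU W U : Filter (J × ℕ)), ∀ j, y p.1 p.2 j ^ d j =
        ∑ i : Fin (d j), algebraMap (k p.1) (AlgebraicClosure (k p.1)) (a j i p) * y p.1 p.2 j ^ (i : ℕ) := by
      rw [Filter.eventually_all]
      exact hda
    set m : ℝ := ∑ j, ((d j : ℝ) + 1) + 1 with hm
    have hm0 : 0 < m := by positivity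
    have hsl : ∀ᶠ p in (PU W U : Filter (J × ℕ)), ∀ j, ∀ i : Fin (d j),
        Height.logHeight₁ (a j i p) ≤ 1 / m * t p.1 p.2 := by
      rw [Filter.eventually_all]
      intro j
      rw [Filter.eventually_all]
      intro i
      exact ha j i _ (by positivity)
    have hcs : ∀ᶠ p in (PU W U : Filter (J × ℕ)), ∀ j,
        Module.finrank ℚ (k p.1) * Real.log (d j) ≤ 1 / m * t p.1 p.2 := by
      rw [Filter.eventually_all]
      intro j
      exact ht.small (W := W) (fun i => Module.finrank ℚ (k i) * Real.log (d j)) (by positivity)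
    obtain ⟨p, h1, h2, h3, h4⟩ := (hda'.and (hsl.and (hcs.and (ht.pos (W := W))))).exists
    have h5 := hgt_le (y p.1 p.2) d (fun j i => a j i p) h1
    have h6 : ∑ j, (∑ i, Height.logHeight₁ (a j i p) + Module.finrank ℚ (k p.1) * Real.log (d j)) ≤
        ∑ j, ((d j : ℝ) + 1) * (1 / m * t p.1 p.2) := by
      refine Finset.sum_le_sum fun j _ => ?_
      have h7 : ∑ i, Height.logHeight₁ (a j i p) ≤ ∑ _i : Fin (d j), 1 / m * t p.1 p.2 :=
        Finset.sum_le_sum fun i _ => h2 j i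
      rw [Finset.sum_const, Finset.card_univ, Fintype.card_fin, nsmul_eq_mul] at h7
      have := h3 j
      linarith
    rw [← Finset.sum_mul] at h6
    have h8 : (∑ j, ((d j : ℝ) + 1)) * (1 / m * t p.1 p.2) < t p.1 p.2 := by
      have h9 : ∑ j, ((d j : ℝ) + 1) = m - 1 := by rw [hm]; ring
      rw [h9]
      have h10 : (m - 1) * (1 / m * t p.1 p.2) = t p.1 p.2 - t p.1 p.2 / m := by
        field_simp
      rw [h10]
      have : 0 < t p.1 p.2 / m := div_pos h4 hm0
      linarith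
    have h11 : t p.1 p.2 = hgt (y p.1 p.2) := rfl
    linarith

end Pool.Agent.SIX
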