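import Pool.Agent.Helper36.SIX.Glue

/-!
# SIX: properties of the germs of the forms
-/

set_option autoImplicit false
set_option linter.unusedSectionVars false

namespace Pool.Agent.SIX

open NumberField IntermediateField Pool.Agent.Helper64.Vojta Pool.Agent.VZ Pool.Agent.PC Pool.Agent.UD
open Filter Topology
open Pool.Agent.SL (Dat br qf bf dt cr lin)

universe u

/-! ## ring homomorphisms -/

section hom

variable {R S : Type*} [CommRing R] [CommRing S] (φ : R →+* S)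

theorem map_br (a b c : Fin 3 → R) :
    φ (br a b c) = br (fun i => φ (a i)) (fun i => φ (b i)) (fun i => φ (c i)) := by
  simp only [br, map_add, map_sub, map_mul]

theorem map_qf (g : Fin 6 → R) (m : Fin 3 → R) : φ (qf g m) = qf (fun i => φ (g i)) (fun i => φ (m i)) := by
  simp only [qf, map_add, map_mul, map_pow]

theorem map_bf (g : Fin 6 → R) (m m' : Fin 3 → R) :
    φ (bf g m m') = bf (fun i => φ (g i)) (fun i => φ (m i)) (fun i => φ (m' i)) := by
  simp only [bf, map_add, map_mul, map_ofNat]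

theorem map_dt (g : Fin 6 → R) : φ (dt g) = dt fun i => φ (g i) := by
  simp only [dt, map_add, map_sub, map_mul, map_pow, map_ofNat]

theorem map_dot (a x : Fin 3 → R) : φ (dot a x) = dot (fun i => φ (a i)) (fun i => φ (x i)) := by
  simp only [dot, map_add, map_mul]

theorem map_cr (a b : Fin 3 → R) : (fun i => φ (cr a b i)) = cr (fun i => φ (a i)) (fun i => φ (b i)) := by
  funext i
  fin_cases i <;> simp [cr]

theorem map_vx (a b c d : Fin 3 → R) :
    (fun i => φ (vx a b c d i)) = vx (fun i => φ (a i)) (fun i => φ (b i)) (fun i => φ (c i)) (fun i => φ (d i)) := by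
  funext i
  simp only [vx, map_sub, map_mul, map_br]

theorem bf_units (g : Fin 6 → R) (m z : Fin 3 → R) : bf g m z =
    bf g m (fun i => if i = 0 then 1 else 0) * z 0 + bf g m (fun i => if i = 1 then 1 else 0) * z 1 +
      bf g m (fun i => if i = 2 then 1 else 0) * z 2 := by
  simp [bf]
  ring

theorem dot_units (a : Fin 3 → R) (i : Fin 3) : dot a (fun j => if j = i then 1 else 0) = a i := by
  fin_cases i <;> simp [dot]

end hom

/-- it is enough to check `Tan` at the unit vectors -/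
theorem tan_iff {F : Type*} [Field F] (M : Fin 6 → F) (a b : Fin 3 → F) :
    Tan M a b ↔ ∃ c : F, ∀ i : Fin 3, bf M (cr a b) (fun j => if j = i then 1 else 0) = c * a i := by
  constructor
  · rintro ⟨c, hc⟩
    refine ⟨c, fun i => ?_⟩
    rw [hc, dot_units]
  · rintro ⟨c, hc⟩
    refine ⟨c, fun z => ?_⟩
    rw [bf_units, hc 0, hc 1, hc 2]
    unfold dot
    ring

section los

variable {J : Type u} {W : Ultrafilter J} {U : Ultrafilter ℕ} {k : J → Type u} [∀ i, Field (k i)]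
  [∀ i, NumberField (k i)] {t : J → ℕ → ℝ}

/-- the vector of the germs of a slow family of vectors -/
noncomputable def gv (ht : Sc U t) {m : ℕ} (a : Fin m → ∀ p : J × ℕ, k p.1) (ha : ∀ i, Slw W U t (a i)) :
    Fin m → SKt W U k t ht := fun i => sk ht (a i) (ha i)

theorem exists_gv (ht : Sc U t) {m : ℕ} (z : Fin m → SKt W U k t ht) :
    ∃ (a : Fin m → ∀ p : J × ℕ, k p.1) (ha : ∀ i, Slw W U t (a i)), gv ht a ha = z := by
  choose a ha h using fun i => exists_slw ht (z i)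
  exact ⟨a, ha, funext h⟩

theorem incl_gv (ht : Sc U t) {m : ℕ} (a : Fin m → ∀ p : J × ℕ, k p.1) (ha : ∀ i, Slw W U t (a i)) :
    (fun i => incl ht (gv ht a ha i)) = fun i => mk (PU W U) (fun p => k p.1) (a i) := rfl

theorem map_gv (ht : Sc U t) {m : ℕ} (a : Fin m → ∀ p : J × ℕ, k p.1) (ha : ∀ i, Slw W U t (a i)) :
    (fun i => algebraMap (SKt W U k t ht) (OO W U k) (gv ht a ha i)) =
      fun i => mk (PU W U) (fun p => AlgebraicClosure (k p.1))
        fun p => algebraMap (k p.1) (AlgebraicClosure (k p.1)) (a i p) := rfl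

theorem incl_zero_iff (ht : Sc U t) (z : SKt W U k t ht) (a : ∀ p : J × ℕ, k p.1)
    (h : incl ht z = mk (PU W U) (fun p => k p.1) a) :
    z = 0 ↔ ∀ᶠ p in (PU W U : Filter (J × ℕ)), a p = 0 := by
  rw [← mk_zero, ← h]
  exact (map_eq_zero (incl ht)).symm

theorem incl_br (ht : Sc U t) {a b c : Fin 3 → ∀ p : J × ℕ, k p.1} (ha : ∀ i, Slw W U t (a i))
    (hb : ∀ i, Slw W U t (b i)) (hc : ∀ i, Slw W U t (c i)) :
    incl ht (br (gv ht a ha) (gv ht b hb) (gv ht c hc)) =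
      mk (PU W U) (fun p => k p.1) fun p => br (fun i => a i p) (fun i => b i p) (fun i => c i p) := by
  rw [map_br, incl_gv, incl_gv, incl_gv, ← map_br]
  rfl

theorem incl_qf (ht : Sc U t) {g : Fin 6 → ∀ p : J × ℕ, k p.1} {a : Fin 3 → ∀ p : J × ℕ, k p.1}
    (hg : ∀ i, Slw W U t (g i)) (ha : ∀ i, Slw W U t (a i)) :
    incl ht (qf (gv ht g hg) (gv ht a ha)) =
      mk (PU W U) (fun p => k p.1) fun p => qf (fun i => g i p) (fun i => a i p) := by
  rw [map_qf, incl_gv, incl_gv, ← map_qf]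
  rfl

theorem incl_dt (ht : Sc U t) {g : Fin 6 → ∀ p : J × ℕ, k p.1} (hg : ∀ i, Slw W U t (g i)) :
    incl ht (dt (gv ht g hg)) = mk (PU W U) (fun p => k p.1) fun p => dt (fun i => g i p) := by
  rw [map_dt, incl_gv, ← map_dt]
  rfl

/-- the germs of the forms -/
noncomputable def gL (W : Ultrafilter J) (ht : Sc U t) (ℓ : ∀ i, Fin 6 → Fin 3 → k i) :
    Fin 6 → Fin 3 → SKt W U k t ht :=
  fun i => gv ht (fun a (p : J × ℕ) => ℓ p.1 i a) fun a => Slw.cst ht fun i' => ℓ i' i a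

theorem genPos_gL (ht : Sc U t) (ℓ : ∀ i, Fin 6 → Fin 3 → k i) (h : ∀ i, GenPos (ℓ i)) :
    GenPos (gL W ht ℓ) := by
  intro i j l hij hil hjl h0
  have h1 := (incl_zero_iff ht _ _ (incl_br ht _ _ _)).1 h0
  obtain ⟨p, hp⟩ := h1.exists
  exact h p.1 i j l hij hil hjl hp

theorem noConic_gL (ht : Sc U t) (ℓ : ∀ i, Fin 6 → Fin 3 → k i) (h : ∀ i, NoConic (ℓ i)) :
    NoConic (gL W ht ℓ) := by
  intro g hg
  obtain ⟨a, ha, rfl⟩ := exists_gv ht g
  have h1 : ∀ᶠ p in (PU W U : Filter (J × ℕ)), ∀ i, qf (fun j => a j p) (ℓ p.1 i) = 0 := by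
    rw [Filter.eventually_all]
    intro i
    exact (incl_zero_iff ht _ _ (incl_qf ht _ _)).1 (hg i)
  funext j
  refine (incl_zero_iff ht _ _ rfl).2 ?_
  filter_upwards [h1] with p hp
  exact congrFun (h p.1 _ hp) j

theorem tan_gL (ht : Sc U t) (ℓ : ∀ i, Fin 6 → Fin 3 → k i) {a : Fin 6 → ∀ p : J × ℕ, k p.1}
    (ha : ∀ i, Slw W U t (a i)) (i j : Fin 6) (h : Tan (gv ht a ha) (gL W ht ℓ i) (gL W ht ℓ j)) :
    ∀ᶠ p in (PU W U : Filter (J × ℕ)), Tan (fun m => a m p) (ℓ p.1 i) (ℓ p.1 j) := by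
  rw [tan_iff] at h
  obtain ⟨c, hc⟩ := h
  obtain ⟨c', hc', rfl⟩ := exists_slw ht c
  have h1 : ∀ᶠ p in (PU W U : Filter (J × ℕ)), ∀ m : Fin 3,
      bf (fun m => a m p) (cr (ℓ p.1 i) (ℓ p.1 j)) (fun l => if l = m then 1 else 0) = c' p * ℓ p.1 i m := by
    rw [Filter.eventually_all]
    intro m
    have h2 := congrArg (incl ht) (hc m)
    rw [map_bf, map_mul, map_cr] at h2
    have h3 : (fun l : Fin 3 => incl (W := W) (k := k) ht (if l = m then 1 else 0)) =
        fun l => mk (PU W U) (fun p : J × ℕ => k p.1) ((if l = m then 1 else 0 : ∀ p : J × ℕ, k p.1)) := by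
      funext l
      split_ifs
      · rw [map_one, map_one]
      · rw [map_zero, map_zero]
    rw [h3] at h2
    have h4 : (fun m => incl ht (gL W ht ℓ i m)) =
      fun m => mk (PU W U) (fun p : J × ℕ => k p.1) (fun p : J × ℕ => ℓ p.1 i m) := rfl
    have h5 : (fun m => incl ht (gL W ht ℓ j m)) =
      fun m => mk (PU W U) (fun p : J × ℕ => k p.1) (fun p : J × ℕ => ℓ p.1 j m) := rfl
    rw [h4, h5, incl_gv, ← map_cr, ← map_bf] at h2
    have h6 : incl ht (sk ht c' hc') * incl ht (gL W ht ℓ i m) =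
        mk (PU W U) (fun p : J × ℕ => k p.1) (c' * fun p : J × ℕ => ℓ p.1 i m) := by
      rw [map_mul]
      rfl
    rw [h6, mk_eq] at h2
    filter_upwards [h2] with p hp
    rw [Pi.mul_apply] at hp
    rw [← hp]
    have h7 := map_bf (Pi.evalRingHom (fun p : J × ℕ => k p.1) p) a
      (cr (fun m (p : J × ℕ) => ℓ p.1 i m) (fun m (p : J × ℕ) => ℓ p.1 j m)) (fun l => if l = m then 1 else 0)
    rw [map_cr] at h7
    simp only [Pi.evalRingHom_apply] at h7
    rw [h7]
    congr 1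
    funext l
    split_ifs <;> rfl
  filter_upwards [h1] with p hp
  exact (tan_iff _ _ _).2 ⟨c' p, hp⟩

theorem exc_gL (ht : Sc U t) (ℓ : ∀ i, Fin 6 → Fin 3 → k i) {a : Fin 6 → ∀ p : J × ℕ, k p.1}
    (ha : ∀ i, Slw W U t (a i)) (h : Exc (gL W ht ℓ) (gv ht a ha)) :
    ∀ᶠ p in (PU W U : Filter (J × ℕ)), Exc (ℓ p.1) (fun m => a m p) := by
  obtain ⟨h0, e, h1, h2, h3, h4⟩ := h
  have h5 : ∀ᶠ p in (PU W U : Filter (J × ℕ)), dt (fun m => a m p) ≠ 0 := by
    rw [Ultrafilter.eventually_not]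
    intro h
    exact h0 ((incl_zero_iff ht _ _ (incl_dt ht ha)).2 h)
  filter_upwards [h5, tan_gL ht ℓ ha _ _ h1, tan_gL ht ℓ ha _ _ h2, tan_gL ht ℓ ha _ _ h3,
    tan_gL ht ℓ ha _ _ h4] with p g0 g1 g2 g3 g4
  exact ⟨g0, e, g1, g2, g3, g4⟩

/-- a conic through the point -/
theorem qf_point (ht : Sc U t) {a : Fin 6 → ∀ p : J × ℕ, k p.1} (ha : ∀ i, Slw W U t (a i))
    (x : Fin 3 → OO W U k) (c : ∀ p : J × ℕ, AlgebraicClosure (k p.1)) (hc : ∀ p, c p ≠ 0)
    (y : ∀ p : J × ℕ, Fin 3 → AlgebraicClosure (k p.1)) (hx : ∀ i, x i = gO fun p : J × ℕ => c p * y p i)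
    (h : qf (fun i => algebraMap (SKt W U k t ht) (OO W U k) (gv ht a ha i)) x = 0) :
    ∀ᶠ p in (PU W U : Filter (J × ℕ)),
      qf (fun i => algebraMap (k p.1) (AlgebraicClosure (k p.1)) (a i p)) (y p) = 0 := by
  have hx' : x = fun i => mk (PU W U) (fun p => AlgebraicClosure (k p.1)) fun p => c p * y p i := funext hx
  rw [map_gv, hx', ← map_qf, mk_zero] at h
  filter_upwards [h] with p hp
  have h1 : qf (fun i => algebraMap (k p.1) (AlgebraicClosure (k p.1)) (a i p)) (fun i => c p * y p i) = 0 := hp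
  have h2 : qf (fun i => algebraMap (k p.1) (AlgebraicClosure (k p.1)) (a i p)) (fun i => c p * y p i) =
      c p ^ 2 * qf (fun i => algebraMap (k p.1) (AlgebraicClosure (k p.1)) (a i p)) (y p) := by
    unfold qf
    ring
  rw [h2] at h1
  exact (mul_eq_zero.1 h1).resolve_left (pow_ne_zero 2 (hc p))

/-- a line through the point -/
theorem lin_point (ht : Sc U t) (v : Fin 3 → SKt W U k t ht) (a : Fin 3 → ∀ p : J × ℕ, k p.1)
    (hv : ∀ i, incl ht (v i) = mk (PU W U) (fun p => k p.1) (a i))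
    (x : Fin 3 → OO W U k) (c : ∀ p : J × ℕ, AlgebraicClosure (k p.1)) (hc : ∀ p, c p ≠ 0)
    (y : ∀ p : J × ℕ, Fin 3 → AlgebraicClosure (k p.1)) (hx : ∀ i, x i = gO fun p : J × ℕ => c p * y p i)
    (h : lin v x = 0) :
    ∀ᶠ p in (PU W U : Filter (J × ℕ)), lin (fun i => a i p) (y p) = 0 := by
  have h1 : lin v x = mk (PU W U) (fun p => AlgebraicClosure (k p.1)) fun p => c p * lin (fun i => a i p) (y p) := by
    have h2 : (fun p : J × ℕ => c p * lin (fun i => a i p) (y p)) =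
        ∑ i, (fun p : J × ℕ => algebraMap (k p.1) (AlgebraicClosure (k p.1)) (a i p)) *
          fun p : J × ℕ => c p * y p i := by
      funext p
      rw [Finset.sum_apply]
      unfold lin
      rw [Finset.mul_sum]
      refine Finset.sum_congr rfl fun i _ => ?_
      rw [Pi.mul_apply]
      ring
    rw [h2, map_sum]
    unfold lin
    refine Finset.sum_congr rfl fun i _ => ?_
    rw [map_mul, hx, algebraMap_sK, hv]
    rfl
  rw [h1, mk_zero] at h
  filter_upwards [h] with p hp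
  exact (mul_eq_zero.1 hp).resolve_left (hc p)

theorem incl_vx (ht : Sc U t) (ℓ : ∀ i, Fin 6 → Fin 3 → k i) (i j m n : Fin 6) (l : Fin 3) :
    incl ht (vx (gL W ht ℓ i) (gL W ht ℓ j) (gL W ht ℓ m) (gL W ht ℓ n) l) =
      mk (PU W U) (fun p => k p.1) fun p => vx (ℓ p.1 i) (ℓ p.1 j) (ℓ p.1 m) (ℓ p.1 n) l := by
  have h := congrFun (map_vx (incl ht) (gL W ht ℓ i) (gL W ht ℓ j) (gL W ht ℓ m) (gL W ht ℓ n)) l
  have h4 : ∀ i, (fun m => incl ht (gL W ht ℓ i m)) =
    fun m => mk (PU W U) (fun p : J × ℕ => k p.1) (fun p : J × ℕ => ℓ p.1 i m) := fun _ => rfl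
  rw [h4, h4, h4, h4, ← map_vx] at h
  exact h

end los

end Pool.Agent.SIX
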